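import Mathlib
import Pool.Agent.V11147.BcC

open Finset Filter Topology
open Pool.Agent.V11147.Bc

namespace Pool.Agent.Results.MP_28a56a_co.GapGrowth

theorem bdd_g (n : ℕ) : BddAbove {t | ∃ (α β : Type) (_ : Fintype α) (_ : Fintype β)
    (E : Finset (α × β)), IsBip E ∧ Fintype.card α + Fintype.card β ≤ n ∧
    t = etaStar E / mu E} := by
  refine ⟨(n : ℝ) / 2, ?_⟩
  rintro t ⟨α, β, iα, iβ, E, hE, hn, rfl⟩
  exact ratio_le hE.1 hn

theorem g_ge (m n : ℕ) (hm : 1 ≤ m) (hn : 2 ^ (m * m + 1) ≤ n) :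
    (2 : ℝ) ^ (m * m) / 2 ^ (8 * m + 2) ≤ g n := by
  obtain ⟨α, β, iα, iβ, E, hE, hc, h⟩ := exists_graph m hm
  have hμ := mu_pos hE.1
  refine le_trans ?_ (le_csSup (bdd_g n) ⟨α, β, iα, iβ, E, hE, by omega, rfl⟩)
  rw [div_le_div_iff₀ (by positivity) hμ]
  linarith

theorem g_le (n : ℕ) (hn : 4 ≤ n) : g n ≤ (n : ℝ) / 2 := by
  obtain ⟨α, β, iα, iβ, E, hE, hc, h⟩ := exists_graph 1 le_rfl
  refine csSup_le ⟨_, α, β, iα, iβ, E, hE, by norm_num at hc; omega, rfl⟩ ?_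
  rintro t ⟨α, β, iα, iβ, E, hE, hn, rfl⟩
  exact ratio_le hE.1 hn

theorem lower (n : ℕ) (hn : 4 ≤ n) :
    (n : ℝ) * (2 : ℝ) ^ (-(14 * Real.sqrt (Real.logb 2 n))) ≤ g n := by
  set l := Nat.log 2 n with hl
  have hl2 : 2 ≤ l := by
    rw [hl]
    exact (Nat.le_log_iff_pow_le (by norm_num) (by omega)).2 (by norm_num; exact hn)
  set m := Nat.sqrt (l - 1) with hmdef
  have hm1 : 1 ≤ m := by
    rw [hmdef]; exact Nat.le_sqrt.2 (by omega)
  have hml : m * m ≤ l - 1 := Nat.sqrt_le (l - 1)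
  have hml2 : l - 1 < (m + 1) * (m + 1) := Nat.lt_succ_sqrt (l - 1)
  have hpow : 2 ^ l ≤ n := Nat.pow_log_le_self 2 (by omega)
  have hn1 : 2 ^ (m * m + 1) ≤ n :=
    le_trans (Nat.pow_le_pow_right (by norm_num) (by omega)) hpow
  have hn2 : n < 2 ^ ((m + 1) * (m + 1) + 1) :=
    lt_of_lt_of_le (Nat.lt_pow_succ_log_self (by norm_num) n)
      (Nat.pow_le_pow_right (by norm_num) (by rw [← hl]; omega))
  refine le_trans ?_ (g_ge m n hm1 hn1)
  have hs : (m : ℝ) ≤ Real.sqrt (Real.logb 2 n) := by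
    refine Real.le_sqrt_of_sq_le ?_
    rw [Real.le_logb_iff_rpow_le (by norm_num) (by exact_mod_cast (by omega : 0 < n))]
    have h1 : (2 : ℝ) ^ ((m : ℝ) ^ 2) = 2 ^ (m * m) := by
      rw [← Real.rpow_natCast 2 (m * m)]
      congr 1
      push_cast
      exact sq (m : ℝ)
    rw [h1]
    have h2 : 2 ^ (m * m) ≤ n := le_trans (Nat.pow_le_pow_right (by norm_num) (by omega)) hn1
    exact_mod_cast h2
  have h3 : (2 : ℝ) ^ (-(14 * Real.sqrt (Real.logb 2 n))) ≤ (2 : ℝ) ^ (-(14 * (m : ℝ))) :=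
    Real.rpow_le_rpow_of_exponent_le (by norm_num) (by linarith)
  have h4 : (2 : ℝ) ^ (-(14 * (m : ℝ))) = ((2 : ℝ) ^ (14 * m))⁻¹ := by
    rw [Real.rpow_neg (by norm_num)]
    congr 1
    rw [← Real.rpow_natCast]; push_cast; rfl
  have h5 : (n : ℝ) ≤ 2 ^ ((m + 1) * (m + 1) + 1) := by exact_mod_cast hn2.le
  calc (n : ℝ) * (2 : ℝ) ^ (-(14 * Real.sqrt (Real.logb 2 n)))
      ≤ 2 ^ ((m + 1) * (m + 1) + 1) * ((2 : ℝ) ^ (14 * m))⁻¹ := by
        rw [← h4]
        exact mul_le_mul h5 h3 (by positivity) (by positivity)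
    _ ≤ (2 : ℝ) ^ (m * m) / 2 ^ (8 * m + 2) := by
        rw [← div_eq_mul_inv, div_le_div_iff₀ (by positivity) (by positivity), ← pow_add, ← pow_add]
        refine pow_le_pow_right₀ (by norm_num) ?_
        have : (m + 1) * (m + 1) = m * m + 2 * m + 1 := by ring
        omega

theorem tends : Tendsto (fun n : ℕ => Real.log (g n) / Real.log n) atTop (𝓝 1) := by
  have hlb : Tendsto (fun n : ℕ => 1 - 14 / Real.sqrt (Real.logb 2 n)) atTop (𝓝 1) := by
    have h1 : Tendsto (fun n : ℕ => Real.sqrt (Real.logb 2 (n : ℝ))) atTop atTop :=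
      Real.tendsto_sqrt_atTop.comp ((Real.tendsto_logb_atTop (by norm_num)).comp
        tendsto_natCast_atTop_atTop)
    have h2 : Tendsto (fun n : ℕ => 14 / Real.sqrt (Real.logb 2 (n : ℝ))) atTop (𝓝 0) :=
      Tendsto.div_atTop tendsto_const_nhds h1
    have h3 := (tendsto_const_nhds (x := (1 : ℝ)) (f := (atTop : Filter ℕ))).sub h2
    simpa using h3
  refine tendsto_of_tendsto_of_tendsto_of_le_of_le' hlb (tendsto_const_nhds (x := (1 : ℝ))) ?_ ?_
  · filter_upwards [eventually_ge_atTop 4] with n hn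
    have hnpos : (0 : ℝ) < n := by exact_mod_cast (by omega : 0 < n)
    have hlog : 0 < Real.log n := Real.log_pos (by exact_mod_cast (by omega : 1 < n))
    have hl2 : 0 < Real.log 2 := Real.log_pos (by norm_num)
    have h1 := lower n hn
    have h2 : 0 < (n : ℝ) * (2 : ℝ) ^ (-(14 * Real.sqrt (Real.logb 2 n))) := by positivity
    have h3 := Real.log_le_log h2 h1
    rw [Real.log_mul hnpos.ne' (by positivity), Real.log_rpow (by norm_num)] at h3
    rw [le_div_iff₀ hlog]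
    refine le_trans (le_of_eq ?_) h3
    have hLb : 0 < Real.logb 2 (n : ℝ) := Real.logb_pos (by norm_num)
      (by exact_mod_cast (by omega : 1 < n))
    have hs : Real.sqrt (Real.logb 2 n) * Real.sqrt (Real.logb 2 n) = Real.logb 2 n :=
      Real.mul_self_sqrt hLb.le
    have hs0 : 0 < Real.sqrt (Real.logb 2 (n : ℝ)) := Real.sqrt_pos.2 hLb
    have h4 : Real.log n = Real.sqrt (Real.logb 2 n) * Real.sqrt (Real.logb 2 n) * Real.log 2 := by
      rw [hs, Real.logb]; field_simp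
    have h5 : 14 / Real.sqrt (Real.logb 2 (n : ℝ)) * Real.log n =
        14 * Real.sqrt (Real.logb 2 n) * Real.log 2 := by
      rw [h4]; field_simp
    rw [sub_mul, one_mul, h5]
    ring
  · filter_upwards [eventually_ge_atTop 4] with n hn
    have hnpos : (0 : ℝ) < n := by exact_mod_cast (by omega : 0 < n)
    have hlog : 0 < Real.log n := Real.log_pos (by exact_mod_cast (by omega : 1 < n))
    rw [div_le_one hlog]
    have h1 := lower n hn
    have h2 : 0 < (n : ℝ) * (2 : ℝ) ^ (-(14 * Real.sqrt (Real.logb 2 n))) := by positivity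
    refine Real.log_le_log (lt_of_lt_of_le h2 h1) ?_
    have := g_le n hn
    linarith

theorem polylog (k N : ℕ) : ∃ n ≥ N, ∃ (α β : Type) (_ : Fintype α) (_ : Fintype β)
    (E : Finset (α × β)), IsBip E ∧ Fintype.card α + Fintype.card β = n ∧
      (Real.log n) ^ k * mu E < etaStar E := by
  set m := 2 * k + 11 + N with hm
  obtain ⟨α, β, iα, iβ, E, hE, hc, h⟩ := exists_graph m (by omega)
  refine ⟨2 ^ (m * m + 1), ?_, α, β, iα, iβ, E, hE, hc, ?_⟩
  · have h1 : m * m + 1 < 2 ^ (m * m + 1) := Nat.lt_two_pow_self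
    have h2 : m ≤ m * m := Nat.le_mul_self m
    omega
  have hμ := mu_pos hE.1
  have hlog : Real.log ((2 ^ (m * m + 1) : ℕ) : ℝ) ≤ 2 ^ (2 * m) := by
    push_cast
    rw [Real.log_pow]
    have h2 : Real.log 2 ≤ 1 := by
      have := Real.log_two_lt_d9
      linarith
    have h3 : m * m + 1 ≤ 2 ^ (2 * m) := by
      have h4 : m + 1 ≤ 2 ^ m := Nat.lt_two_pow_self
      calc m * m + 1 ≤ (m + 1) * (m + 1) := by nlinarith
        _ ≤ 2 ^ m * 2 ^ m := Nat.mul_le_mul h4 h4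
        _ = 2 ^ (2 * m) := by rw [← pow_add]; congr 1; ring
    have h5 : ((m * m + 1 : ℕ) : ℝ) ≤ 2 ^ (2 * m) := by exact_mod_cast h3
    have h6 : (0 : ℝ) ≤ ((m * m + 1 : ℕ) : ℝ) := Nat.cast_nonneg _
    have h7 : 0 ≤ Real.log 2 := Real.log_nonneg (by norm_num)
    calc ((m * m + 1 : ℕ) : ℝ) * Real.log 2 ≤ ((m * m + 1 : ℕ) : ℝ) * 1 :=
          mul_le_mul_of_nonneg_left h2 h6
      _ ≤ 2 ^ (2 * m) := by rw [mul_one]; exact h5
  have hlog0 : 0 ≤ Real.log ((2 ^ (m * m + 1) : ℕ) : ℝ) := Real.log_natCast_nonneg _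
  have h1 : (Real.log ((2 ^ (m * m + 1) : ℕ) : ℝ)) ^ k ≤ 2 ^ (2 * m * k) := by
    rw [pow_mul]
    exact pow_le_pow_left₀ hlog0 hlog k
  have h2 : (2 : ℝ) ^ (8 * m + 2) * ((Real.log ((2 ^ (m * m + 1) : ℕ) : ℝ)) ^ k * mu E) <
      2 ^ (8 * m + 2) * etaStar E := by
    refine lt_of_lt_of_le ?_ h
    rw [← mul_assoc]
    refine mul_lt_mul_of_pos_right ?_ hμ
    calc (2 : ℝ) ^ (8 * m + 2) * (Real.log ((2 ^ (m * m + 1) : ℕ) : ℝ)) ^ k
        ≤ 2 ^ (8 * m + 2) * 2 ^ (2 * m * k) := mul_le_mul_of_nonneg_left h1 (by positivity)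
      _ = 2 ^ (8 * m + 2 + 2 * m * k) := by rw [← pow_add]
      _ < 2 ^ (m * m) := by
          refine pow_lt_pow_right₀ (by norm_num) ?_
          have h3 : m * (2 * k + 11) ≤ m * m := Nat.mul_le_mul_left m (by omega)
          have h4 : m * (2 * k + 11) = 2 * m * k + 11 * m := by ring
          omega
  exact lt_of_mul_lt_mul_left h2 (by positivity)

/-- **Result.**  The largest ratio `g(n)` satisfies
`n * 2^(-14 sqrt(log_2 n)) ≤ g(n) ≤ n/2` for all `n ≥ 4`, so `g(n) = n^(1-o(1))`; in particular it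
is not bounded by a polylogarithmic function. -/
theorem result :
    (∀ n : ℕ, 4 ≤ n →
      (n : ℝ) * (2 : ℝ) ^ (-(14 * Real.sqrt (Real.logb 2 n))) ≤ g n ∧ g n ≤ (n : ℝ) / 2) ∧
    Tendsto (fun n : ℕ => Real.log (g n) / Real.log n) atTop (𝓝 1) ∧
    (∀ k N : ℕ, ∃ n ≥ N, ∃ (α β : Type) (_ : Fintype α) (_ : Fintype β)
      (E : Finset (α × β)), IsBip E ∧ Fintype.card α + Fintype.card β = n ∧
        (Real.log n) ^ k * mu E < etaStar E) :=
  ⟨fun n hn => ⟨lower n hn, g_le n hn⟩, tends, polylog⟩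

end Pool.Agent.Results.MP_28a56a_co.GapGrowth
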